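import Pool.Agent.N929.EZ.Stm

/-!
# EZ/QUO: differences of quotients
-/

set_option autoImplicit false

namespace Pool.Agent.N278.EZ

open Finset
open Pool.Agent.N929.EZ

theorem Df_succ (r : ℕ) (h : ℕ → ℝ) (n : ℕ) :
    Df (r + 1) h n = Df r h n - Df r h (n + 1) := by
  have e := Finset.sum_choose_succ_mul (fun i _ : ℕ => (-1 : ℝ) ^ i * h (n + i)) r
  unfold Df
  have e1 : ∑ i ∈ range (r + 1 + 1), (-1 : ℝ) ^ i * ((r + 1).choose i : ℝ) * h (n + i) =
      ∑ i ∈ range (r + 2), ((r + 1).choose i : ℝ) * ((-1 : ℝ) ^ i * h (n + i)) :=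
    Finset.sum_congr rfl fun i _ => by ring
  rw [e1, e, sub_eq_add_neg, ← Finset.sum_neg_distrib]
  congr 1
  · exact Finset.sum_congr rfl fun i _ => by ring
  · refine Finset.sum_congr rfl fun i _ => ?_
    rw [show n + (i + 1) = n + 1 + i by ring]
    ring

theorem Df_mul (r : ℕ) (q g : ℕ → ℝ) (n : ℕ) :
    Df r (fun j => q j * g j) n =
      ∑ s ∈ range (r + 1), (r.choose s : ℝ) * (Df s q n * Df (r - s) g (n + s)) := by
  induction r generalizing n with
  | zero => simp [Df]
  | succ r ih =>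
    rw [Df_succ, ih, ih]
    have e := Finset.sum_choose_succ_mul (fun s t : ℕ => Df s q n * Df t g (n + s)) r
    rw [show r + 1 + 1 = r + 2 from rfl, e, ← Finset.sum_sub_distrib, ← Finset.sum_add_distrib]
    refine Finset.sum_congr rfl fun s hs => ?_
    have hs' : s ≤ r := Nat.lt_succ_iff.1 (Finset.mem_range.1 hs)
    have h1 : Df (r + 1 - s) g (n + s) = Df (r - s) g (n + s) - Df (r - s) g (n + s + 1) := by
      rw [Nat.succ_sub hs', Nat.succ_eq_add_one, Df_succ]
    have h2 : Df (s + 1) q n = Df s q n - Df s q (n + 1) := Df_succ s q n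
    have h3 : n + (s + 1) = n + s + 1 := by ring
    have h4 : n + 1 + s = n + s + 1 := by ring
    rw [h1, h2, h3, h4]
    ring

theorem Df_zero (h : ℕ → ℝ) (n : ℕ) : Df 0 h n = h n := by simp [Df]

theorem quo_aux (B : ℝ) (hB : 0 < B) (r : ℕ) : ∃ C : ℝ, 0 < C ∧ ∀ u, u ≤ r →
    ∀ (f g : ℕ → ℝ) (n : ℕ) (α ε : ℝ), 0 < ε → ε ≤ 1 →
    0 ≤ α → (∀ j, j ≤ u → 0 < g (n + j)) → (∀ j, j ≤ u → g n ≤ B * g (n + j)) →
    (∀ s, s ≤ u → |Df s f n| ≤ B * ε ^ s * α) →
    (∀ s j, s + j ≤ u → |Df s g (n + j)| ≤ B * ε ^ s * g n) →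
    |Df u (fun j => f j / g j) n| ≤ C * ε ^ u * (α / g n) := by
  induction r with
  | zero =>
    refine ⟨B, hB, ?_⟩
    intro u hu f g n α ε h0 h1 ha hg hg' hf hd
    obtain rfl : u = 0 := Nat.le_zero.1 hu
    have h2 := hf 0 le_rfl
    have h3 := hg 0 le_rfl
    rw [Df_zero] at h2 ⊢
    rw [add_zero] at h3
    rw [abs_div, abs_of_pos h3, ← mul_div_assoc]
    exact div_le_div_of_nonneg_right h2 h3.le
  | succ r ih =>
    obtain ⟨C, hC, H⟩ := ih
    set K : ℝ := B * (B + ∑ s ∈ range (r + 1), ((r + 1).choose s : ℝ) * (C * B)) with hK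
    have hK0 : 0 < K := by positivity
    refine ⟨max C K, lt_max_of_lt_left hC, ?_⟩
    intro u hu f g n α ε h0 h1 ha hg hg' hf hd
    have hgn : 0 < g n := by
      have := hg 0 (Nat.zero_le _)
      rwa [add_zero] at this
    have hnn : 0 ≤ ε ^ u * (α / g n) := by positivity
    rcases Nat.lt_or_ge r u with hlt | hle
    swap
    · refine (H u hle f g n α ε h0 h1 ha hg hg' hf hd).trans ?_
      rw [mul_assoc, mul_assoc]
      exact mul_le_mul_of_nonneg_right (le_max_left _ _) hnn
    obtain rfl : u = r + 1 := by omega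
    set q : ℕ → ℝ := fun j => f j / g j with hq
    have hprod : Df (r + 1) f n = Df (r + 1) (fun j => q j * g j) n := by
      unfold Df
      refine Finset.sum_congr rfl fun i hi => ?_
      have hi' : i ≤ r + 1 := Nat.lt_succ_iff.1 (Finset.mem_range.1 hi)
      have := (hg i hi').ne'
      rw [hq]
      simp only
      rw [div_mul_cancel₀ _ this]
    rw [Df_mul, Finset.sum_range_succ, Nat.choose_self, Nat.cast_one, one_mul, Nat.sub_self,
      Df_zero g] at hprod
    have hsm : ∀ s ∈ range (r + 1), |((r + 1).choose s : ℝ) *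
        (Df s q n * Df (r + 1 - s) g (n + s))| ≤
        ((r + 1).choose s : ℝ) * (C * B) * (ε ^ (r + 1) * α) := by
      intro s hs
      have hs' : s ≤ r := Nat.lt_succ_iff.1 (Finset.mem_range.1 hs)
      have a1 := H s hs' f g n α ε h0 h1 ha (fun j hj => hg j (by omega))
        (fun j hj => hg' j (by omega)) (fun t ht => hf t (by omega))
        (fun t j ht => hd t j (by omega))
      have a2 := hd (r + 1 - s) s (by omega)
      rw [abs_mul, abs_mul, Nat.abs_cast, mul_assoc]
      refine mul_le_mul_of_nonneg_left ?_ (Nat.cast_nonneg _)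
      refine (mul_le_mul a1 a2 (abs_nonneg _) (by positivity)).trans (le_of_eq ?_)
      have hp : ε ^ (r + 1) = ε ^ s * ε ^ (r + 1 - s) := by
        rw [← pow_add]
        congr 1
        omega
      rw [hp]
      field_simp
    have hmain : |Df (r + 1) q n| * g (n + (r + 1)) ≤
        (B + ∑ s ∈ range (r + 1), ((r + 1).choose s : ℝ) * (C * B)) * (ε ^ (r + 1) * α) := by
      have e1 : Df (r + 1) q n * g (n + (r + 1)) = Df (r + 1) f n -
          ∑ s ∈ range (r + 1), ((r + 1).choose s : ℝ) *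
            (Df s q n * Df (r + 1 - s) g (n + s)) := by
        rw [hprod]
        ring
      have e2 : |Df (r + 1) q n| * g (n + (r + 1)) = |Df (r + 1) q n * g (n + (r + 1))| := by
        rw [abs_mul, abs_of_pos (hg (r + 1) le_rfl)]
      rw [e2, e1]
      refine (abs_sub _ _).trans ?_
      rw [add_mul, Finset.sum_mul]
      refine add_le_add ?_ ((Finset.abs_sum_le_sum_abs _ _).trans (Finset.sum_le_sum hsm))
      have := hf (r + 1) le_rfl
      rw [← mul_assoc]
      exact this
    have hfin : |Df (r + 1) q n| * g n ≤ K * (ε ^ (r + 1) * α) := by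
      calc |Df (r + 1) q n| * g n ≤ |Df (r + 1) q n| * (B * g (n + (r + 1))) :=
            mul_le_mul_of_nonneg_left (hg' (r + 1) le_rfl) (abs_nonneg _)
        _ = B * (|Df (r + 1) q n| * g (n + (r + 1))) := by ring
        _ ≤ B * ((B + ∑ s ∈ range (r + 1), ((r + 1).choose s : ℝ) * (C * B)) *
            (ε ^ (r + 1) * α)) := mul_le_mul_of_nonneg_left hmain hB.le
        _ = K * (ε ^ (r + 1) * α) := by rw [hK]; ring
    have hfin2 : |Df (r + 1) q n| ≤ K * (ε ^ (r + 1) * α) / g n := by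
      rw [le_div_iff₀ hgn]
      exact hfin
    refine hfin2.trans ?_
    have e3 : K * (ε ^ (r + 1) * α) / g n = K * (ε ^ (r + 1) * (α / g n)) := by
      rw [mul_div_assoc, mul_div_assoc]
    rw [e3, mul_assoc (max C K)]
    exact mul_le_mul_of_nonneg_right (le_max_right _ _) hnn

/-- QUO -/
theorem quo : S_QUO := by
  intro r B hB
  obtain ⟨C, hC, H⟩ := quo_aux B hB r
  exact ⟨C, hC, fun f g n α ε h0 h1 ha hg hg' hf hd => H r le_rfl f g n α ε h0 h1 ha hg hg' hf hd⟩

end Pool.Agent.N278.EZ
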