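import Pool.Agent.N929.EZ.Stm

/-!
# EZ/RAT: binomial coefficients away from the balance point
-/

set_option autoImplicit false

namespace Pool.Agent.N278.EZ

open Finset
open Pool.Agent.N929.EZ

theorem ch_up (S t : ℕ) (ρ : ℝ) (hρ : 0 < ρ) (h : ρ * ((t : ℝ) + 1) ≤ (S : ℝ) - t) :
    ρ * (S.choose t : ℝ) ≤ (S.choose (t + 1) : ℝ) := by
  have ht : (0 : ℝ) < (t : ℝ) + 1 := by positivity
  have hle : t ≤ S := by
    have : (0 : ℝ) < (S : ℝ) - t := lt_of_lt_of_le (mul_pos hρ ht) h
    have h2 : (t : ℝ) < S := by linarith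
    exact (Nat.cast_lt.1 h2).le
  have e : (S.choose (t + 1) : ℝ) * ((t : ℝ) + 1) = (S.choose t : ℝ) * ((S : ℝ) - t) := by
    have := Nat.choose_succ_right_eq S t
    rw [← Nat.cast_sub hle]
    exact_mod_cast this
  have h2 : ρ * (S.choose t : ℝ) * ((t : ℝ) + 1) ≤ (S.choose (t + 1) : ℝ) * ((t : ℝ) + 1) := by
    rw [e]
    calc ρ * (S.choose t : ℝ) * ((t : ℝ) + 1) = (S.choose t : ℝ) * (ρ * ((t : ℝ) + 1)) := by ring
      _ ≤ (S.choose t : ℝ) * ((S : ℝ) - t) := mul_le_mul_of_nonneg_left h (Nat.cast_nonneg _)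
  exact le_of_mul_le_mul_right h2 ht

theorem ch_dn (S t : ℕ) (ρ : ℝ) (hle : t ≤ S) (h : (S : ℝ) - t ≤ ρ * ((t : ℝ) + 1)) :
    (S.choose (t + 1) : ℝ) ≤ ρ * (S.choose t : ℝ) := by
  have ht : (0 : ℝ) < (t : ℝ) + 1 := by positivity
  have e : (S.choose (t + 1) : ℝ) * ((t : ℝ) + 1) = (S.choose t : ℝ) * ((S : ℝ) - t) := by
    have := Nat.choose_succ_right_eq S t
    rw [← Nat.cast_sub hle]
    exact_mod_cast this
  have h2 : (S.choose (t + 1) : ℝ) * ((t : ℝ) + 1) ≤ ρ * (S.choose t : ℝ) * ((t : ℝ) + 1) := by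
    rw [e]
    calc (S.choose t : ℝ) * ((S : ℝ) - t) ≤ (S.choose t : ℝ) * (ρ * ((t : ℝ) + 1)) :=
          mul_le_mul_of_nonneg_left h (Nat.cast_nonneg _)
      _ = ρ * (S.choose t : ℝ) * ((t : ℝ) + 1) := by ring
  exact le_of_mul_le_mul_right h2 ht

/-- RAT -/
theorem rat : S_RAT := by
  intro m ε S j i s hm h0 h1 hij hjS hs
  set d : ℝ := (j : ℝ) - i with hd
  have hd0 : 0 ≤ d := by
    have : (i : ℝ) ≤ j := Nat.cast_le.2 hij
    linarith
  have hi0 : (0 : ℝ) ≤ i := Nat.cast_nonneg _
  have hs0 : (0 : ℝ) ≤ s := Nat.cast_nonneg _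
  have hd1 : 0 < d + 1 := by linarith
  have hme : 0 < m * ε := by positivity
  constructor
  · intro h
    rw [lt_div_iff₀ hd1] at h
    have hρ : 0 < m * (1 + ε / 2) := by positivity
    have key : ∀ u, u ≤ s → (S.choose j : ℝ) * (m * (1 + ε / 2)) ^ u ≤
        (S.choose (j + u) : ℝ) := by
      intro u
      induction u with
      | zero => intro _; simp
      | succ u ih =>
        intro hu
        have ih' := ih (by omega)
        have hu' : (u : ℝ) + 1 ≤ s := by exact_mod_cast hu
        have hu0 : (0 : ℝ) ≤ u := Nat.cast_nonneg _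
        have hstep : m * (1 + ε / 2) * (((j + u : ℕ) : ℝ) + 1) ≤ (S : ℝ) - ((j + u : ℕ) : ℝ) := by
          push_cast
          have hT : (j : ℝ) + u + 1 ≤ (d + 1) * (1 + ε / 12) := by
            have : (j : ℝ) = d + i := by rw [hd]; ring
            rw [this]
            linarith
          have hkey : (1 + ε / 12) * (1 + m * (1 + ε / 2)) ≤ (1 + ε) * m + 1 := by
            nlinarith [mul_le_mul_of_nonneg_left h1 hme.le]
          have e1 : (1 + m * (1 + ε / 2)) * ((j : ℝ) + u + 1) ≤
              (1 + m * (1 + ε / 2)) * ((d + 1) * (1 + ε / 12)) :=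
            mul_le_mul_of_nonneg_left hT (by positivity)
          have e2 : (1 + m * (1 + ε / 2)) * ((d + 1) * (1 + ε / 12)) ≤
              ((1 + ε) * m + 1) * (d + 1) := by
            calc (1 + m * (1 + ε / 2)) * ((d + 1) * (1 + ε / 12)) =
                ((1 + ε / 12) * (1 + m * (1 + ε / 2))) * (d + 1) := by ring
              _ ≤ ((1 + ε) * m + 1) * (d + 1) := mul_le_mul_of_nonneg_right hkey hd1.le
          nlinarith
        have := ch_up S (j + u) _ hρ hstep
        calc (S.choose j : ℝ) * (m * (1 + ε / 2)) ^ (u + 1) =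
            m * (1 + ε / 2) * ((S.choose j : ℝ) * (m * (1 + ε / 2)) ^ u) := by ring
          _ ≤ m * (1 + ε / 2) * (S.choose (j + u) : ℝ) := mul_le_mul_of_nonneg_left ih' hρ.le
          _ ≤ (S.choose (j + (u + 1)) : ℝ) := this
    exact key s le_rfl
  · intro h
    rw [div_lt_iff₀ hd1] at h
    have hdj : d ≤ j := by rw [hd]; linarith
    have hsd : 12 * (s : ℝ) ≤ ε * (d + 1) := by linarith
    have hsd' : 12 * (s : ℝ) ≤ d + 1 := by nlinarith
    have hsj : s ≤ j := by
      have : 12 * (s : ℝ) ≤ j + 1 := by linarith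
      have h3 : 12 * s ≤ j + 1 := by exact_mod_cast this
      omega
    refine ⟨hsj, ?_⟩
    have hρ : 0 ≤ m * (1 - ε / 2) := mul_nonneg (by linarith) (by linarith)
    have key : ∀ u, u ≤ s → (S.choose j : ℝ) ≤ (m * (1 - ε / 2)) ^ u *
        (S.choose (j - u) : ℝ) := by
      intro u
      induction u with
      | zero => intro _; simp
      | succ u ih =>
        intro hu
        have ih' := ih (by omega)
        obtain ⟨t, ht⟩ : ∃ t, j = t + (u + 1) := ⟨j - (u + 1), by omega⟩
        have hju : j - u = t + 1 := by omega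
        have hju' : j - (u + 1) = t := by omega
        have hu' : (u : ℝ) + 1 ≤ s := by exact_mod_cast hu
        have htr : (t : ℝ) = j - (u + 1) := by
          rw [ht]; push_cast; ring
        rw [hju] at ih'
        rw [hju']
        have hstep : (S : ℝ) - t ≤ m * (1 - ε / 2) * ((t : ℝ) + 1) := by
          have hT : (d + 1) * (1 - ε / 12) ≤ (t : ℝ) + 1 := by
            rw [htr]
            linarith
          have hkey : (1 - ε) * m + 1 ≤ (1 - ε / 12) * (1 + m * (1 - ε / 2)) := by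
            nlinarith [mul_le_mul_of_nonneg_left h1 hme.le]
          have e1 : (1 + m * (1 - ε / 2)) * ((d + 1) * (1 - ε / 12)) ≤
              (1 + m * (1 - ε / 2)) * ((t : ℝ) + 1) :=
            mul_le_mul_of_nonneg_left hT (by linarith)
          have e2 : ((1 - ε) * m + 1) * (d + 1) ≤
              (1 + m * (1 - ε / 2)) * ((d + 1) * (1 - ε / 12)) := by
            calc ((1 - ε) * m + 1) * (d + 1) ≤
                ((1 - ε / 12) * (1 + m * (1 - ε / 2))) * (d + 1) :=
                  mul_le_mul_of_nonneg_right hkey hd1.le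
              _ = (1 + m * (1 - ε / 2)) * ((d + 1) * (1 - ε / 12)) := by ring
          nlinarith
        have := ch_dn S t _ (by omega) hstep
        calc (S.choose j : ℝ) ≤ (m * (1 - ε / 2)) ^ u * (S.choose (t + 1) : ℝ) := ih'
          _ ≤ (m * (1 - ε / 2)) ^ u * (m * (1 - ε / 2) * (S.choose t : ℝ)) :=
              mul_le_mul_of_nonneg_left this (pow_nonneg hρ _)
          _ = (m * (1 - ε / 2)) ^ (u + 1) * (S.choose t : ℝ) := by ring
    exact key s le_rfl

end Pool.Agent.N278.EZ
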